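import Mathlib

/-!
# Vaguely null measures whose Fourier transforms converge to a non-zero measure

We answer the question of MP_831e37_an affirmatively, in every dimension `d ≥ 1`.
-/

open MeasureTheory Filter Topology
open scoped ENNReal BigOperators

noncomputable section

namespace Pool.Agent.Results.MP_831e37_an.NullMeasures

/-- A complex Radon measure on `E`, in polar-type form: the measure `dens · base`, where `base` is a
positive locally finite Borel measure and `dens` is a locally `base`-integrable complex density.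
(On `ℝ^d` every complex Radon measure has this form, with `base` its total variation and
`|dens| = 1`; conversely every such pair defines a complex Radon measure.) -/
structure CMeas (E : Type*) [MeasurableSpace E] [TopologicalSpace E] where
  /-- the positive base measure -/
  base : Measure E
  /-- the base measure is locally finite -/
  locFin : IsLocallyFiniteMeasure base
  /-- the complex density -/
  dens : E → ℂ
  /-- the density is locally integrable -/
  locInt : LocallyIntegrable dens base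

variable {E : Type*} [MeasurableSpace E] [TopologicalSpace E]

/-- The total variation measure `|μ| = |dens| · base`. -/
def CMeas.variation (μ : CMeas E) : Measure E := μ.base.withDensity (fun x => ‖μ.dens x‖ₑ)

/-- The integral `μ(g) = ∫ g dμ = ∫ g · dens d(base)`. -/
def CMeas.eval (μ : CMeas E) (g : E → ℂ) : ℂ := ∫ x, g x * μ.dens x ∂μ.base

/-- Membership in `C_c(E)`: continuous complex functions with compact support. -/
def IsCc (g : E → ℂ) : Prop := Continuous g ∧ HasCompactSupport g

/-- Vague convergence of a sequence of complex Radon measures. -/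
def VagueTendsto (ν : ℕ → CMeas E) (μ : CMeas E) : Prop :=
  ∀ g : E → ℂ, IsCc g → Tendsto (fun n => (ν n).eval g) atTop (𝓝 (μ.eval g))

/-- Vague convergence of a sequence of complex Radon measures to the zero measure. -/
def VagueTendstoZero (ν : ℕ → CMeas E) : Prop :=
  ∀ g : E → ℂ, IsCc g → Tendsto (fun n => (ν n).eval g) atTop (𝓝 0)

/-- The measure is non-zero, as a functional on `C_c(E)`. -/
def CMeas.NonZero (μ : CMeas E) : Prop := ∃ g : E → ℂ, IsCc g ∧ μ.eval g ≠ 0

variable {d : ℕ}

/-- `K₂(ℝ^d)`, the linear span of the convolutions `f * h` with `f, h ∈ C_c(ℝ^d)`. -/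
def K2 (d : ℕ) : Submodule ℂ (EuclideanSpace ℝ (Fin d) → ℂ) :=
  Submodule.span ℂ {g | ∃ f h : EuclideanSpace ℝ (Fin d) → ℂ, IsCc f ∧ IsCc h ∧
    g = fun x => ∫ t, f t * h (x - t)}

/-- The inverse Fourier transform `ǧ(x) = ∫ g(t) e^{2π i x·t} dt`. -/
def invFT (g : EuclideanSpace ℝ (Fin d) → ℂ) (x : EuclideanSpace ℝ (Fin d)) : ℂ :=
  ∫ t, g t * Complex.exp (2 * Real.pi * Complex.I * (∑ i, x i * t i : ℝ))

/-- `μ'` is the Fourier transform of `μ`: for each `g ∈ K₂` the function `ǧ` is `|μ'|`-integrable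
and `μ(g) = μ'(ǧ)`. -/
def IsFourierTransform (μ μ' : CMeas (EuclideanSpace ℝ (Fin d))) : Prop :=
  ∀ g ∈ K2 d, Integrable (invFT g) μ'.variation ∧ μ.eval g = μ'.eval (invFT g)


section Proof

open Polynomial

variable {d : ℕ}

/-- The polynomial `1 - (1 - (1 - X)^J)^K`. -/
def P (J K : ℕ) : ℂ[X] := 1 - (1 - (1 - X) ^ J) ^ K

lemma P_eval (J K : ℕ) (w : ℂ) : (P J K).eval w = 1 - (1 - (1 - w) ^ J) ^ K := by
  simp [P]

lemma P_coeff_zero {J K : ℕ} (hK : 0 < K) : (P J K).coeff 0 = 1 := by
  rw [Polynomial.coeff_zero_eq_eval_zero, P_eval]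
  simp [hK.ne']

lemma P_coeff_lt {J K j : ℕ} (hj0 : 0 < j) (hj : j < K) : (P J K).coeff j = 0 := by
  have h1 : (X : ℂ[X]) ∣ (1 - (1 - X) ^ J) := by
    rw [Polynomial.X_dvd_iff, Polynomial.coeff_zero_eq_eval_zero]
    simp
  have h2 : (X : ℂ[X]) ^ K ∣ (1 - (1 - X) ^ J) ^ K := pow_dvd_pow_of_dvd h1 K
  have h3 := (Polynomial.X_pow_dvd_iff.mp h2) j hj
  have h4 : (1 : ℂ[X]).coeff j = 0 := by
    rw [Polynomial.coeff_one]; simp [hj0.ne']
  simp [P, Polynomial.coeff_sub, h3, h4]

lemma exists_J (K : ℕ) (ε : ℝ) (hε : 0 < ε) :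
    ∃ J : ℕ, ∀ w : ℂ, ‖1 - w‖ ≤ 1 / 2 → ‖(P J K).eval w‖ < ε := by
  have hc : ContinuousAt (fun z : ℂ => 1 - (1 - z) ^ K) 0 := by fun_prop
  rw [Metric.continuousAt_iff] at hc
  obtain ⟨δ, hδ, h⟩ := hc ε hε
  obtain ⟨J, hJ⟩ := exists_pow_lt_of_lt_one hδ (show (1 / 2 : ℝ) < 1 by norm_num)
  refine ⟨J, fun w hw => ?_⟩
  have h2 : dist ((1 - w) ^ J) 0 < δ := by
    rw [dist_zero_right, norm_pow]
    exact lt_of_le_of_lt (pow_le_pow_left₀ (norm_nonneg _) hw J) hJ
  have h3 := h h2
  rw [P_eval]
  simpa [dist_eq_norm] using h3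

/-- the frequency vector `t · e₀`. -/
def freq (i0 : Fin d) (t : ℝ) : EuclideanSpace ℝ (Fin d) := EuclideanSpace.single i0 t

lemma invFT_freq (i0 : Fin d) (t : ℝ) (g : EuclideanSpace ℝ (Fin d) → ℂ) :
    invFT g (freq i0 t) = ∫ x, g x * Complex.exp (2 * Real.pi * Complex.I * (t * x i0 : ℝ)) := by
  unfold invFT freq
  congr 1
  ext x
  congr 3
  rw [Finset.sum_eq_single i0]
  · simp
  · intro b _ hb
    simp [hb]
  · simp

/-- The trigonometric-polynomial measure with coefficients `p`. -/
def nu (i0 : Fin d) (p : ℂ[X]) (η : ℝ) : CMeas (EuclideanSpace ℝ (Fin d)) where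
  base := volume
  locFin := inferInstance
  dens := fun x => ∑ j ∈ Finset.range (p.natDegree + 1),
    p.coeff j * Complex.exp (2 * Real.pi * Complex.I * ((j * η) * x i0 : ℝ))
  locInt := by
    apply Continuous.locallyIntegrable
    fun_prop

/-- The discrete measure with atoms `p.coeff j` at `j η e₀`. -/
def nuHat (i0 : Fin d) (p : ℂ[X]) (η : ℝ) : CMeas (EuclideanSpace ℝ (Fin d)) where
  base := ∑ j ∈ Finset.range (p.natDegree + 1), Measure.dirac (freq i0 (j * η))
  locFin := by
    have : IsFiniteMeasure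
        (∑ j ∈ Finset.range (p.natDegree + 1), Measure.dirac (freq i0 (j * η)) :
          Measure (EuclideanSpace ℝ (Fin d))) := by
      infer_instance
    infer_instance
  dens := fun y => ∑ j ∈ Finset.range (p.natDegree + 1),
    Set.indicator {freq i0 (j * η)} (fun _ => p.coeff j) y
  locInt := by
    apply Integrable.locallyIntegrable
    apply integrable_finsetSum
    intro j _
    apply Integrable.indicator
    · have : IsFiniteMeasure
        (∑ j ∈ Finset.range (p.natDegree + 1), Measure.dirac (freq i0 (j * η)) :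
          Measure (EuclideanSpace ℝ (Fin d))) := by
        infer_instance
      exact integrable_const _
    · exact measurableSet_singleton _

lemma freq_inj (i0 : Fin d) {s t : ℝ} (h : freq i0 s = freq i0 t) : s = t := by
  have := congrArg (fun v : EuclideanSpace ℝ (Fin d) => v i0) h
  simpa [freq] using this

lemma nuHat_dens (i0 : Fin d) (p : ℂ[X]) {η : ℝ} (hη : η ≠ 0) {j : ℕ}
    (hj : j ∈ Finset.range (p.natDegree + 1)) :
    (nuHat i0 p η).dens (freq i0 (j * η)) = p.coeff j := by
  show ∑ k ∈ Finset.range (p.natDegree + 1),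
    Set.indicator {freq i0 (k * η)} (fun _ => p.coeff k) (freq i0 (j * η)) = p.coeff j
  rw [Finset.sum_eq_single j]
  · simp
  · intro b _ hb
    apply Set.indicator_of_notMem
    intro h
    apply hb
    have h1 := freq_inj i0 (Set.mem_singleton_iff.mp h)
    have h2 : (j : ℝ) = b := mul_right_cancel₀ hη h1
    exact_mod_cast h2.symm
  · intro h; exact absurd hj h

lemma eval_nuHat (i0 : Fin d) (p : ℂ[X]) {η : ℝ} (hη : η ≠ 0)
    (g : EuclideanSpace ℝ (Fin d) → ℂ) :
    (nuHat i0 p η).eval g
      = ∑ j ∈ Finset.range (p.natDegree + 1), p.coeff j * g (freq i0 (j * η)) := by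
  unfold CMeas.eval
  have hb : (nuHat i0 p η).base
    = ∑ j ∈ Finset.range (p.natDegree + 1), Measure.dirac (freq i0 (j * η)) := rfl
  rw [hb, integral_finsetSum_measure]
  · apply Finset.sum_congr rfl
    intro j hj
    rw [integral_dirac, nuHat_dens i0 p hη hj, mul_comm]
  · intro j _
    exact integrable_dirac enorm_lt_top

lemma eval_nu (i0 : Fin d) (p : ℂ[X]) (η : ℝ)
    {g : EuclideanSpace ℝ (Fin d) → ℂ} (hg : Integrable g) :
    (nu i0 p η).eval g
      = ∑ j ∈ Finset.range (p.natDegree + 1), p.coeff j * invFT g (freq i0 (j * η)) := by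
  unfold CMeas.eval
  have hb : (nu i0 p η).base = volume := rfl
  have hd : (nu i0 p η).dens = fun x => ∑ j ∈ Finset.range (p.natDegree + 1),
    p.coeff j * Complex.exp (2 * Real.pi * Complex.I * ((j * η) * x i0 : ℝ)) := rfl
  rw [hb, hd]
  have h1 : ∀ x : EuclideanSpace ℝ (Fin d), g x * (∑ j ∈ Finset.range (p.natDegree + 1),
      p.coeff j * Complex.exp (2 * Real.pi * Complex.I * ((j * η) * x i0 : ℝ)))
      = ∑ j ∈ Finset.range (p.natDegree + 1), p.coeff j *
        (g x * Complex.exp (2 * Real.pi * Complex.I * ((j * η) * x i0 : ℝ))) := by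
    intro x
    rw [Finset.mul_sum]
    apply Finset.sum_congr rfl
    intro j _
    ring
  simp only [h1]
  rw [integral_finsetSum]
  · apply Finset.sum_congr rfl
    intro j _
    rw [integral_const_mul, invFT_freq]
  · intro j _
    apply Integrable.const_mul
    apply hg.mul_bdd (c := 1)
    · apply Continuous.aestronglyMeasurable
      fun_prop
    · filter_upwards with x
      have : (2 * Real.pi * Complex.I * ((j * η) * x i0 : ℝ) : ℂ)
        = ((2 * Real.pi * ((j * η) * x i0) : ℝ) : ℂ) * Complex.I := by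
        push_cast; ring
      rw [this, Complex.norm_exp_ofReal_mul_I]

lemma integrable_of_K2 {g : EuclideanSpace ℝ (Fin d) → ℂ} (hg : g ∈ K2 d) : Integrable g := by
  unfold K2 at hg
  induction hg using Submodule.span_induction with
  | mem x hx =>
    obtain ⟨f, h, hf, hh, rfl⟩ := hx
    have h1 : Integrable f := hf.1.integrable_of_hasCompactSupport hf.2
    have h2 : Integrable h := hh.1.integrable_of_hasCompactSupport hh.2
    exact h1.integrable_convolution (ContinuousLinearMap.mul ℝ ℂ) h2
  | zero => exact integrable_zero _ _ _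
  | add x y _ _ hx hy => exact hx.add hy
  | smul a x _ hx => exact hx.smul a

lemma isFT (i0 : Fin d) (p : ℂ[X]) {η : ℝ} (hη : η ≠ 0) :
    IsFourierTransform (nu i0 p η) (nuHat i0 p η) := by
  intro g hg
  have hgi := integrable_of_K2 hg
  refine ⟨?_, ?_⟩
  · have hfin : ∀ x, ‖(nuHat i0 p η).dens x‖ₑ < ∞ := fun x => enorm_lt_top
    unfold CMeas.variation
    have hmeas : Measurable (nuHat i0 p η).dens := by
      show Measurable (fun y => ∑ j ∈ Finset.range (p.natDegree + 1),
        Set.indicator {freq i0 (j * η)} (fun _ => p.coeff j) y)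
      apply Finset.measurable_sum
      intro j _
      exact measurable_const.indicator (measurableSet_singleton _)
    rw [integrable_withDensity_iff_integrable_smul' hmeas.enorm (by
      filter_upwards with x using hfin x)]
    have hb : (nuHat i0 p η).base
      = ∑ j ∈ Finset.range (p.natDegree + 1), Measure.dirac (freq i0 (j * η)) := rfl
    rw [hb]
    apply integrable_finsetSum_measure.mpr
    intro j _
    exact integrable_dirac enorm_lt_top
  · rw [eval_nu i0 p η hgi, eval_nuHat i0 p hη]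


lemma nu_dens_eq (i0 : Fin d) (p : ℂ[X]) (η : ℝ) (x : EuclideanSpace ℝ (Fin d)) :
    (nu i0 p η).dens x
      = p.eval (Complex.exp (2 * Real.pi * Complex.I * (η * x i0 : ℝ))) := by
  show ∑ j ∈ Finset.range (p.natDegree + 1),
    p.coeff j * Complex.exp (2 * Real.pi * Complex.I * ((j * η) * x i0 : ℝ)) = _
  rw [Polynomial.eval_eq_sum_range]
  apply Finset.sum_congr rfl
  intro j _
  rw [← Complex.exp_nat_mul]
  congr 2
  push_cast
  ring

/-- the parameter `η = 1/(4π(n+1))`. -/
def eta (n : ℕ) : ℝ := 1 / (4 * Real.pi * (n + 1))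

lemma eta_pos (n : ℕ) : 0 < eta n := by unfold eta; positivity

/-- the exponent `K = 13 (n+1)^2`. -/
def KK (n : ℕ) : ℕ := 13 * (n + 1) ^ 2

/-- the exponent `J` chosen for `K = KK n` and `ε = 1/(n+1)`. -/
def JJ (n : ℕ) : ℕ := (exists_J (KK n) (1 / (n + 1)) (by positivity)).choose

lemma JJ_spec (n : ℕ) (w : ℂ) (hw : ‖1 - w‖ ≤ 1 / 2) :
    ‖(P (JJ n) (KK n)).eval w‖ < 1 / (n + 1) :=
  (exists_J (KK n) (1 / (n + 1)) (by positivity)).choose_spec w hw

lemma dens_small (i0 : Fin d) (n : ℕ) (x : EuclideanSpace ℝ (Fin d)) (hx : ‖x‖ ≤ n + 1) :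
    ‖(nu i0 (P (JJ n) (KK n)) (eta n)).dens x‖ ≤ 1 / (n + 1) := by
  rw [nu_dens_eq]
  apply le_of_lt
  apply JJ_spec
  have h1 : |x i0| ≤ n + 1 := by
    have := EuclideanSpace.norm_eq x
    have h2 : ‖x i0‖ ≤ ‖x‖ := PiLp.norm_apply_le x i0
    rw [Real.norm_eq_abs] at h2
    linarith
  have h2 : (2 * Real.pi * Complex.I * (eta n * x i0 : ℝ) : ℂ)
      = Complex.I * ((x i0 / (2 * (n + 1)) : ℝ) : ℂ) := by
    have hpi : (Real.pi : ℂ) ≠ 0 := by exact_mod_cast Real.pi_ne_zero
    have hn : ((n : ℂ) + 1) ≠ 0 := by exact_mod_cast (Nat.succ_ne_zero n)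
    unfold eta
    push_cast
    field_simp
    ring
  rw [h2, norm_sub_rev]
  refine (Real.norm_exp_I_mul_ofReal_sub_one_le).trans ?_
  rw [Real.norm_eq_abs, abs_div, abs_of_pos (show (0 : ℝ) < 2 * (n + 1) by positivity),
    div_le_iff₀ (by positivity)]
  linarith

lemma freq_large (i0 : Fin d) (n j : ℕ) (hj : KK n ≤ j) :
    (n + 1 : ℝ) ≤ ‖freq i0 (j * eta n)‖ := by
  unfold freq
  rw [PiLp.norm_single, Real.norm_eq_abs,
    abs_of_nonneg (by have := (eta_pos n).le; positivity)]
  unfold eta
  have hK : (13 * (n + 1) ^ 2 : ℝ) ≤ j := by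
    have : ((KK n : ℕ) : ℝ) ≤ j := by exact_mod_cast hj
    unfold KK at this
    push_cast at this
    linarith
  rw [mul_one_div, le_div_iff₀ (by positivity)]
  have hpi : Real.pi < 3.15 := Real.pi_lt_d2
  have hn : (0 : ℝ) < n + 1 := by positivity
  have : (n + 1 : ℝ) * (4 * Real.pi * (n + 1)) = 4 * Real.pi * (n + 1) ^ 2 := by ring
  rw [this]
  have h3 : 4 * Real.pi * (n + 1 : ℝ) ^ 2 ≤ 13 * (n + 1) ^ 2 := by
    apply mul_le_mul_of_nonneg_right _ (by positivity)
    linarith
  linarith

lemma support_ball {g : EuclideanSpace ℝ (Fin d) → ℂ} (hg : IsCc g) :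
    ∃ R : ℕ, ∀ x, (R : ℝ) < ‖x‖ → g x = 0 := by
  obtain ⟨R, hR⟩ := hg.2.isCompact.isBounded.exists_norm_le
  obtain ⟨m, hm⟩ := exists_nat_ge R
  refine ⟨m, fun x hx => ?_⟩
  by_contra h
  have : x ∈ tsupport g := subset_tsupport g (by simpa using h)
  have := hR x this
  linarith

/-- The Dirac mass at the origin. -/
def delta0 (d : ℕ) : CMeas (EuclideanSpace ℝ (Fin d)) where
  base := Measure.dirac 0
  locFin := inferInstance
  dens := fun _ => 1
  locInt := (integrable_const _).locallyIntegrable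

lemma eval_delta0 (g : EuclideanSpace ℝ (Fin d) → ℂ) : (delta0 d).eval g = g 0 := by
  unfold CMeas.eval
  show ∫ x, g x * 1 ∂(Measure.dirac (0 : EuclideanSpace ℝ (Fin d))) = g 0
  rw [integral_dirac]; simp

end Proof

/-- **Answer to MP_831e37_an, Q1 (yes), in every dimension `d ≥ 1`.** There are Fourier
transformable measures `ν n` on `ℝ^d`, with Fourier transforms `ν' n`, and a non-zero measure `μ`
(the Dirac mass at the origin) such that, in the vague topology, `ν n → 0` and `ν' n → μ`. -/
theorem result (d : ℕ) (hd : 0 < d) :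
    ∃ (ν ν' : ℕ → CMeas (EuclideanSpace ℝ (Fin d))) (μ : CMeas (EuclideanSpace ℝ (Fin d))),
      (∀ n, IsFourierTransform (ν n) (ν' n)) ∧
      VagueTendstoZero ν ∧ VagueTendsto ν' μ ∧ μ.NonZero := by
  let i0 : Fin d := ⟨0, hd⟩
  refine ⟨fun n => nu i0 (P (JJ n) (KK n)) (eta n), fun n => nuHat i0 (P (JJ n) (KK n)) (eta n),
    delta0 d, fun n => isFT i0 _ (eta_pos n).ne', ?_, ?_, ?_⟩
  · intro g hg
    obtain ⟨R, hR⟩ := support_ball hg
    have hgi : Integrable g := hg.1.integrable_of_hasCompactSupport hg.2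
    rw [tendsto_zero_iff_norm_tendsto_zero]
    have hlim : Tendsto (fun n : ℕ => (∫ x, ‖g x‖) * (1 / ((n : ℝ) + 1))) atTop (𝓝 0) := by
      have := (tendsto_one_div_add_atTop_nhds_zero_nat (𝕜 := ℝ)).const_mul (∫ x, ‖g x‖)
      simpa using this
    apply squeeze_zero' (Eventually.of_forall fun n => norm_nonneg _) _ hlim
    filter_upwards [eventually_ge_atTop R] with n hn
    unfold CMeas.eval
    have hb : (nu i0 (P (JJ n) (KK n)) (eta n)).base = volume := rfl
    rw [hb]
    calc ‖∫ x, g x * (nu i0 (P (JJ n) (KK n)) (eta n)).dens x‖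
        ≤ ∫ x, ‖g x‖ * (1 / ((n : ℝ) + 1)) := by
          apply norm_integral_le_of_norm_le (hgi.norm.mul_const _)
          filter_upwards with x
          rw [norm_mul]
          by_cases hx : ‖x‖ ≤ n + 1
          · exact mul_le_mul_of_nonneg_left (dens_small i0 n x hx) (norm_nonneg _)
          · have h0 : g x = 0 := by
              apply hR
              push Not at hx
              have : (R : ℝ) ≤ n := by exact_mod_cast hn
              linarith
            simp [h0]
      _ = (∫ x, ‖g x‖) * (1 / ((n : ℝ) + 1)) := integral_mul_const _ _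
  · intro g hg
    obtain ⟨R, hR⟩ := support_ball hg
    apply tendsto_const_nhds.congr'
    filter_upwards [eventually_ge_atTop R] with n hn
    rw [eval_delta0, eval_nuHat i0 _ (eta_pos n).ne']
    symm
    rw [Finset.sum_eq_single 0]
    · rw [P_coeff_zero (by unfold KK; positivity)]
      have h0 : freq i0 (((0 : ℕ) : ℝ) * eta n) = 0 := by
        ext k; simp [freq]
      rw [h0, one_mul]
    · intro j _ hj0
      by_cases hj : j < KK n
      · rw [P_coeff_lt (Nat.pos_of_ne_zero hj0) hj, zero_mul]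
      · have h0 : g (freq i0 (j * eta n)) = 0 := by
          apply hR
          have h1 := freq_large i0 n j (not_lt.mp hj)
          have : (R : ℝ) ≤ n := by exact_mod_cast hn
          linarith
        rw [h0, mul_zero]
    · intro h
      exfalso; apply h; simp
  · let φ : ContDiffBump (0 : EuclideanSpace ℝ (Fin d)) := ⟨1, 2, by norm_num, by norm_num⟩
    refine ⟨fun x => (φ x : ℂ), ⟨?_, ?_⟩, ?_⟩
    · exact Complex.continuous_ofReal.comp φ.continuous
    · exact φ.hasCompactSupport.comp_left (g := fun t : ℝ => (t : ℂ)) (by simp)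
    · rw [eval_delta0]
      have : φ 0 = 1 := φ.one_of_mem_closedBall (by simp [φ.rIn_pos.le])
      simp [this]

end Pool.Agent.Results.MP_831e37_an.NullMeasures
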